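import Mathlib
import Pool.Agent.N741.HB.Stm2
import Pool.Agent.N222.HB.Hb
import Pool.Agent.Y902.GN.Lp

/-!
# HB/16: few vectors of large parts, from the core theorem

Project HB (helper741); this file by helper403, after `Pool.Agent.N222.HB.Hb` and
`Pool.Agent.Y902.GN.Lp`.
-/

set_option autoImplicit false

namespace Pool.Agent.N403.HB

open Filter Pool.Agent.Y902.GN Pool.Agent.N741.HB Pool.Agent.N222.HB

/-- normalised data of a solution with large parts `A` -/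
structure LhN (n N E R L : ℕ) (δ : ℝ) (Y : ℕ) (u : Fin n → ℤ) (v : ℤ) (A : Fin n → ℕ)
    (a s : Fin n → ℤ) (x : Fin N → ℕ) (e : Fin n → Fin N → ℕ) (s₀ : ℤ) (e₀ : Fin N → ℕ) (z : ℤ)
    (r : ℕ) : Prop where
  hb : HbPt n N E R δ Y u v a
  hx : ∀ j, 1 ≤ x j ∧ x j ≤ Y
  hs : ∀ i, |s i| ≤ (Y : ℤ) ^ E
  hs0 : |s₀| ≤ (Y : ℤ) ^ E
  ha : ∀ i, a i = s i * ∏ j, (x j : ℤ) ^ e i j
  hA : ∀ i, A i = ∏ j, if R ≤ e i j then x j ^ e i j else 1
  he : ∀ i j, (2 : ℝ) ^ e i j ≤ Real.exp ((Y : ℝ) ^ δ)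
  he0 : ∀ j, (2 : ℝ) ^ e₀ j ≤ Real.exp ((Y : ℝ) ^ δ)
  hr1 : min R L ≤ r
  hr2 : r ≤ max (L + 1) (⌊((2 * (n + 2) : ℕ) : ℝ) * (Y : ℝ) ^ δ⌋₊ + 1)
  heq : ∑ i, u i * a i = v * ((s₀ * ∏ j, (x j : ℤ) ^ e₀ j) * z ^ r)

/-- normalised representations -/
theorem lh_norm {n N E R : ℕ} {δ : ℝ} {Y : ℕ} {u : Fin n → ℤ} {v : ℤ} {A : Fin n → ℕ}
    (hL : LhPt n N E R δ Y u v A) (hY : 1 ≤ Y) (hδ : 0 ≤ δ)
    (hu : ∀ i, ((|u i| : ℤ) : ℝ) ≤ Real.exp ((Y : ℝ) ^ δ)) (L : ℕ) :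
    ∃ (a s : Fin n → ℤ) (x : Fin N → ℕ) (e : Fin n → Fin N → ℕ) (s₀ : ℤ) (e₀ : Fin N → ℕ) (z : ℤ)
      (r : ℕ), LhN n N E R L δ Y u v A a s x e s₀ e₀ z r := by
  obtain ⟨a, s, x, e, s₀, e₀, z, r, hg, hnv, hhi, h1, h2, h3, h4, hAA, h5, h6, h7, h8⟩ := hL
  have h : HbPt n N E R δ Y u v a := ⟨hg, hnv, hhi, s, x, e, s₀, e₀, z, r, h1, h2, h3, h4, h5, h6,
    h7, h8⟩
  have hA' : ∀ i, A i = ∏ j, if R ≤ (if x j = 1 then 0 else e i j) then
      x j ^ (if x j = 1 then 0 else e i j) else 1 := by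
    intro i
    rw [hAA i]
    refine Finset.prod_congr rfl fun j _ => ?_
    by_cases hj : x j = 1
    · simp [hj]
    · simp [hj]
  have hy1 : (1 : ℝ) ≤ (Y : ℝ) ^ δ := Real.one_le_rpow (by exact_mod_cast hY) hδ
  have hprod : ∀ e : Fin N → ℕ, ∏ j, (x j : ℤ) ^ e j =
      ∏ j, (x j : ℤ) ^ (if x j = 1 then 0 else e j) := by
    intro e
    refine Finset.prod_congr rfl fun j _ => ?_
    by_cases hj : x j = 1
    · simp [hj]
    · simp [hj]
  have hne := hb_sum h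
  rw [h8] at hne
  have hv0 : v ≠ 0 := left_ne_zero_of_mul hne
  have hc0 : s₀ * ∏ j, (x j : ℤ) ^ e₀ j ≠ 0 := left_ne_zero_of_mul (right_ne_zero_of_mul hne)
  have hz0 : z ^ r ≠ 0 := right_ne_zero_of_mul (right_ne_zero_of_mul hne)
  -- the exponents
  have hE : ∀ i j, (2 : ℝ) ^ (if x j = 1 then 0 else e i j) ≤ Real.exp ((Y : ℝ) ^ δ) := by
    intro i j
    by_cases hj : x j = 1
    · simp only [hj, if_true, pow_zero]
      exact Real.one_le_exp (by positivity)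
    · simp only [hj, if_false]
      have hx : 2 ≤ x j := by have := (h1 j).1; omega
      have e1 : (x j : ℤ) ^ e i j ∣ a i := by
        rw [h4 i]
        exact Dvd.dvd.mul_left (Finset.dvd_prod_of_mem (fun j => (x j : ℤ) ^ e i j)
          (Finset.mem_univ j)) _
      have e2 : (x j : ℤ) ^ e i j ≤ |a i| :=
        Int.le_of_dvd (abs_pos.2 (hb_nz h i)) ((dvd_abs _ _).2 e1)
      have e3 : (2 : ℤ) ^ e i j ≤ (x j : ℤ) ^ e i j := by
        exact_mod_cast Nat.pow_le_pow_left hx (e i j)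
      have e4 : ((2 : ℤ) : ℝ) ^ e i j ≤ ((|a i| : ℤ) : ℝ) := by exact_mod_cast e3.trans e2
      refine le_trans ?_ (h.hi i)
      push_cast at e4 ⊢
      exact e4
  have hE0 : ∀ j, (2 : ℝ) ^ (if x j = 1 then 0 else e₀ j) ≤ Real.exp ((Y : ℝ) ^ δ) := by
    intro j
    by_cases hj : x j = 1
    · simp only [hj, if_true, pow_zero]
      exact Real.one_le_exp (by positivity)
    · simp only [hj, if_false]
      have hx : 2 ≤ x j := by have := (h1 j).1; omega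
      have e3 : (2 : ℝ) ^ e₀ j ≤ (x j : ℝ) ^ e₀ j :=
        pow_le_pow_left₀ (by norm_num) (by exact_mod_cast hx) _
      have e4 : (x j : ℝ) ^ e₀ j ≤ ∏ j, (x j : ℝ) ^ e₀ j := by
        rw [← Finset.mul_prod_erase _ _ (Finset.mem_univ j)]
        refine le_mul_of_one_le_right (by positivity) ?_
        calc (1 : ℝ) = ∏ _i ∈ Finset.univ.erase j, (1 : ℝ) := by simp
          _ ≤ _ := Finset.prod_le_prod (fun _ _ => zero_le_one) fun i _ =>
            one_le_pow₀ (by exact_mod_cast (h1 i).1)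
      exact e3.trans (e4.trans h5)
  have h4' : ∀ i, a i = s i * ∏ j, (x j : ℤ) ^ (if x j = 1 then 0 else e i j) := fun i => by
    rw [← hprod (e i)]
    exact h4 i
  rw [hprod e₀] at h8
  -- the power
  have hzr : ∃ (z' : ℤ) (r' : ℕ), z' ^ r' = z ^ r ∧ min R L ≤ r' ∧
      r' ≤ max (L + 1) (⌊((2 * (n + 2) : ℕ) : ℝ) * (Y : ℝ) ^ δ⌋₊ + 1) := by
    by_cases hz : 2 ≤ |z|
    · refine ⟨z, r, rfl, (min_le_left _ _).trans h6, ?_⟩
      have k1 : |z| ^ r ≤ |∑ i, u i * a i| := by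
        rw [h8, abs_mul, abs_mul, abs_pow]
        have k2 : 1 ≤ |v| := Int.one_le_abs hv0
        rw [hprod e₀] at hc0
        have k3 := Int.one_le_abs hc0
        have k4 : 0 ≤ |z| ^ r := by positivity
        nlinarith [mul_le_mul k2 k3 (by norm_num) (abs_nonneg v)]
      have k5 : (2 : ℤ) ^ r ≤ |∑ i, u i * a i| :=
        (pow_le_pow_left₀ (by norm_num) hz r).trans k1
      have k6 : (2 : ℝ) ^ r ≤ ((|∑ i, u i * a i| : ℤ) : ℝ) := by exact_mod_cast k5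
      have k7 := exp_bd k6 (sum_bd hy1 hu h.hi)
      have k8 : ((2 : ℕ) : ℝ) * (((n + 2 : ℕ) : ℝ) * (Y : ℝ) ^ δ) =
          ((2 * (n + 2) : ℕ) : ℝ) * (Y : ℝ) ^ δ := by push_cast; ring
      rw [k8] at k7
      exact k7.le.trans (le_max_right _ _)
    · have hz1 : z ^ r = 1 ∨ z ^ r = -1 := by
        have k1 : |z| ≤ 1 := by omega
        have k2 : |z ^ r| ≤ 1 := by
          rw [abs_pow]
          exact pow_le_one₀ (abs_nonneg _) k1
        have k3 := Int.one_le_abs hz0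
        have k4 : |z ^ r| = 1 := le_antisymm k2 k3
        exact (abs_eq (by norm_num)).mp k4
      rcases hz1 with hz1 | hz1
      · exact ⟨1, L, by rw [hz1, one_pow], min_le_right _ _,
          (Nat.le_succ L).trans (le_max_left _ _)⟩
      · rcases Nat.even_or_odd L with hL | hL
        · refine ⟨-1, L + 1, ?_, (min_le_right _ _).trans (Nat.le_succ L), le_max_left _ _⟩
          rw [hz1]
          exact (hL.add_one).neg_one_pow
        · refine ⟨-1, L, ?_, min_le_right _ _, (Nat.le_succ L).trans (le_max_left _ _)⟩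
          rw [hz1]
          exact hL.neg_one_pow
  obtain ⟨z', r', g1, g2, g3⟩ := hzr
  rw [← g1] at h8
  exact ⟨a, s, x, _, s₀, _, z', r', h, h1, h2, h3, h4', hA', hE, hE0, g2, g3, h8⟩

/-- `Y` is large if some large part is not one -/
theorem lh_large {n N E ν L Y : ℕ} {u : Fin n → ℤ} {v : ℤ} {A : Fin n → ℕ}
    {a s : Fin n → ℤ} {x : Fin N → ℕ} {e : Fin n → Fin N → ℕ} {s₀ : ℤ} {e₀ : Fin N → ℕ} {z : ℤ}
    {r : ℕ} (hY : 1 ≤ Y)
    (h : LhN n N E ν L (1 / ((ν : ℝ) + 1)) Y u v A a s x e s₀ e₀ z r) (hA : A ≠ fun _ => 1) :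
    ν ≤ 2 * Y := by
  obtain ⟨i, hi⟩ : ∃ i, A i ≠ 1 := by
    by_contra hcon
    push Not at hcon
    exact hA (funext hcon)
  rw [h.hA i] at hi
  obtain ⟨j, _, hj⟩ := Finset.exists_ne_one_of_prod_ne_one hi
  by_cases hR : ν ≤ e i j
  swap
  · rw [if_neg hR] at hj; exact absurd rfl hj
  have y1 : (1 : ℝ) ≤ (Y : ℝ) := by exact_mod_cast hY
  have h3 : (2 : ℝ) ^ ν ≤ Real.exp (Y : ℝ) := by
    calc (2 : ℝ) ^ ν ≤ (2 : ℝ) ^ e i j := pow_le_pow_right₀ (by norm_num) hR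
      _ ≤ Real.exp ((Y : ℝ) ^ (1 / ((ν : ℝ) + 1))) := h.he i j
      _ ≤ Real.exp (Y : ℝ) := by
          apply Real.exp_le_exp.2
          calc (Y : ℝ) ^ (1 / ((ν : ℝ) + 1)) ≤ (Y : ℝ) ^ (1 : ℝ) := by
                apply Real.rpow_le_rpow_of_exponent_le y1
                rw [div_le_one (by positivity)]
                have : (0 : ℝ) ≤ (ν : ℝ) := Nat.cast_nonneg _
                linarith
            _ = (Y : ℝ) := Real.rpow_one _
  have h4 : Real.log ((2 : ℝ) ^ ν) ≤ (Y : ℝ) := by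
    rw [Real.log_le_iff_le_exp (by positivity)]
    exact h3
  rw [Real.log_pow] at h4
  have h5 : (1 : ℝ) / 2 < Real.log 2 := by
    have := Real.log_two_gt_d9
    linarith
  have h6 : (ν : ℝ) ≤ 2 * (Y : ℝ) := by
    nlinarith [(Nat.cast_nonneg ν : (0 : ℝ) ≤ (ν : ℝ))]
  exact_mod_cast h6

/-- **Few vectors of large parts.** -/
theorem lp (hcore : S_core) : S_lp := by
  classical
  intro n N E ε hε
  by_contra hcon
  push Not at hcon
  have hseq := fun ν : ℕ => hcon ν (1 / ((ν : ℝ) + 1)) (by positivity)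
  choose Y0 hY1 u v hu hv0 hv T hT hc using hseq
  have hY1' : ∀ ν, (1 : ℝ) ≤ (Y0 ν : ℝ) := fun ν => by exact_mod_cast hY1 ν
  have hδ : ∀ ν : ℕ, (0 : ℝ) ≤ 1 / ((ν : ℝ) + 1) := fun ν => by positivity
  have hpow1 : ∀ ν, 1 ≤ (Y0 ν : ℝ) ^ (1 / ((ν : ℝ) + 1)) := fun ν =>
    Real.one_le_rpow (hY1' ν) (hδ ν)
  obtain ⟨L, hL⟩ : ∃ L : ℕ → ℕ, ∀ ν, L ν = Nat.log 2 (Y0 ν + 2) := ⟨_, fun _ => rfl⟩
  -- representations
  choose! a s x e s0 e0 z r hrep using fun ν A (h : A ∈ T ν) =>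
    lh_norm (hT ν A h) (hY1 ν) (hδ ν) (fun i => (hu ν i).2) (L ν)
  have hYlarge : ∀ ν, ν ≤ 2 * Y0 ν := by
    intro ν
    have h1 : (1 : ℝ) ≤ (Y0 ν : ℝ) ^ ε := Real.one_le_rpow (hY1' ν) hε.le
    have h2 : 1 < (T ν).card := by exact_mod_cast lt_of_le_of_lt h1 (hc ν)
    obtain ⟨A, hA, A', hA', hne⟩ := Finset.one_lt_card.1 h2
    by_cases h3 : A = fun _ => 1
    · exact lh_large (hY1 ν) (hrep ν A' hA') (fun h4 => hne (h3.trans h4.symm))
    · exact lh_large (hY1 ν) (hrep ν A hA) h3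
  have hY0 : ∀ m : ℕ, ∀ᶠ ν in (Uf : Filter ℕ), m ≤ Y0 ν := by
    intro m
    filter_upwards [ev_ge (2 * m)] with ν hν
    have := hYlarge ν
    omega
  obtain ⟨Y, hYd⟩ : ∃ Y : ℕ → ℕ, ∀ ν, Y ν = Y0 ν ^ (E + 1) := ⟨_, fun _ => rfl⟩
  have hYY : ∀ ν, Y0 ν ≤ Y ν := fun ν => by
    rw [hYd]
    exact Nat.le_self_pow (by omega) _
  have hY : ∀ m : ℕ, ∀ᶠ ν in (Uf : Filter ℕ), m ≤ Y ν := fun m =>
    (hY0 m).mono fun ν hν => hν.trans (hYY ν)
  have hYYe : ∀ᶠ ν in (Uf : Filter ℕ), Y0 ν ≤ Y ν := Filter.Eventually.of_forall hYY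
  have hYE : ∀ ν, (Y0 ν : ℤ) ^ E ≤ (Y ν : ℤ) := fun ν => by
    rw [hYd]
    push_cast
    exact pow_le_pow_right₀ (by exact_mod_cast hY1 ν) (by omega)
  have hbig : Big Y T := by
    refine big_of_card (ε := ε / (E + 1)) (by positivity) (hY 2) (Filter.Eventually.of_forall
      fun ν => ?_)
    rw [hYd]
    push_cast
    rw [← Real.rpow_natCast, ← Real.rpow_mul (by positivity)]
    have : ((E + 1 : ℕ) : ℝ) * (ε / ((E : ℝ) + 1)) = ε := by
      push_cast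
      field_simp
    rw [this]
    exact hc ν
  -- the bounds
  obtain ⟨F, hF⟩ : ∃ F : ℕ → ℕ, ∀ ν, F ν =
    ⌊((2 : ℕ) : ℝ) * (Y0 ν : ℝ) ^ (1 / ((ν : ℝ) + 1))⌋₊ + 1 := ⟨_, fun _ => rfl⟩
  obtain ⟨W, hW⟩ : ∃ W : ℕ → ℕ, ∀ ν, W ν =
    ⌊((2 * (n + 2) : ℕ) : ℝ) * (Y0 ν : ℝ) ^ (1 / ((ν : ℝ) + 1))⌋₊ + 1 := ⟨_, fun _ => rfl⟩
  have fewF : Few Y F := by
    have h1 := (few_rpow hY0 2).mono_Y hYYe
    exact h1.mono (Filter.Eventually.of_forall fun ν => (hF ν).le)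
  have fewW : Few Y W := by
    have h1 := (few_rpow hY0 (2 * (n + 2))).mono_Y hYYe
    exact h1.mono (Filter.Eventually.of_forall fun ν => (hW ν).le)
  have fewL : Few Y (fun ν => L ν + 1) := by
    have h1 : Few Y0 (fun ν => L ν + 1) := by
      intro c
      filter_upwards [ev_log_pow hY0 c] with ν hν
      rw [hL]
      exact hν
    exact h1.mono_Y hYYe
  obtain ⟨B, hB⟩ : ∃ B : ℕ → ℕ, ∀ ν, B ν = (L ν + 1) + W ν := ⟨_, fun _ => rfl⟩
  have fewB : Few Y B := (Few.add hY fewL fewW).mono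
    (Filter.Eventually.of_forall fun ν => (hB ν).le)
  have heb : ∀ ν, ∀ A ∈ T ν, ∀ i j, e ν A i j < F ν := by
    intro ν A h i j
    rw [hF]
    exact exp_bd ((hrep ν A h).he i j) le_rfl
  have he0b : ∀ ν, ∀ A ∈ T ν, ∀ j, e0 ν A j < F ν := by
    intro ν A h j
    rw [hF]
    exact exp_bd ((hrep ν A h).he0 j) le_rfl
  have hrb : ∀ ν, ∀ A ∈ T ν, r ν A ≤ B ν := by
    intro ν A h
    refine (hrep ν A h).hr2.trans ?_
    rw [← hW, hB]
    omega
  -- constant exponents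
  obtain ⟨T', h1, h2, h3⟩ := hbig.fiber (fun ν A => (e ν A, e0 ν A, r ν A))
    (fun ν => (Fintype.piFinset fun _ : Fin n => Fintype.piFinset fun _ : Fin N =>
      Finset.range (F ν)) ×ˢ ((Fintype.piFinset fun _ : Fin N => Finset.range (F ν)) ×ˢ
        Finset.range (B ν + 1)))
    (Filter.Eventually.of_forall fun ν A h => by
      rw [Finset.mem_product, Finset.mem_product]
      refine ⟨?_, ?_, ?_⟩
      · rw [Fintype.mem_piFinset]
        intro i
        rw [Fintype.mem_piFinset]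
        intro j
        rw [Finset.mem_range]
        exact heb ν A h i j
      · rw [Fintype.mem_piFinset]
        intro j
        rw [Finset.mem_range]
        exact he0b ν A h j
      · rw [Finset.mem_range]
        exact Nat.lt_succ_of_le (hrb ν A h)) (by
      have h4 := ((fewF.pow N).pow n).mul ((fewF.pow N).mul (Few.add hY fewB (Few.const hY 1)))
      refine h4.mono (Filter.Eventually.of_forall fun ν => ?_)
      rw [Finset.card_product, Finset.card_product, Fintype.card_piFinset_const,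
        Fintype.card_piFinset_const, Finset.card_range, Finset.card_range])
  obtain ⟨qq, hqq⟩ : ∃ qq : ℕ → (Fin n → Fin N → ℕ) × (Fin N → ℕ) × ℕ,
      ∀ᶠ ν in (Uf : Filter ℕ), (∀ A ∈ T' ν, (e ν A, e0 ν A, r ν A) = qq ν) := by
    have h4 : ∀ᶠ ν in (Uf : Filter ℕ), ∃ qq : (Fin n → Fin N → ℕ) × (Fin N → ℕ) × ℕ,
        ∀ A ∈ T' ν, (e ν A, e0 ν A, r ν A) = qq := by
      filter_upwards [h3, h2.nonempty] with ν a b
      obtain ⟨p0, hp0⟩ := b
      exact ⟨(e ν p0, e0 ν p0, r ν p0), fun p hp => a p hp p0 hp0⟩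
    exact h4.choice
  obtain ⟨e1, he1d⟩ : ∃ e1 : ℕ → Fin n → Fin N → ℕ, ∀ ν, e1 ν = (qq ν).1 := ⟨_, fun _ => rfl⟩
  obtain ⟨e2, he2d⟩ : ∃ e2 : ℕ → Fin N → ℕ, ∀ ν, e2 ν = (qq ν).2.1 := ⟨_, fun _ => rfl⟩
  obtain ⟨r1, hr1d⟩ : ∃ r1 : ℕ → ℕ, ∀ ν, r1 ν = (qq ν).2.2 := ⟨_, fun _ => rfl⟩
  have hcst : ∀ᶠ ν in (Uf : Filter ℕ), ∀ A ∈ T' ν, e ν A = e1 ν ∧ e0 ν A = e2 ν ∧
      r ν A = r1 ν := by
    filter_upwards [hqq] with ν b A h
    rw [he1d, he2d, hr1d, ← b A h]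
    exact ⟨rfl, rfl, rfl⟩
  have hgd : ∀ᶠ ν in (Uf : Filter ℕ), ∀ A ∈ T' ν, LhN n N E ν (L ν) (1 / ((ν : ℝ) + 1)) (Y0 ν)
      (u ν) (v ν) A (a ν A) (s ν A) (x ν A) (e1 ν) (s0 ν A) (e2 ν) (z ν A) (r1 ν) := by
    filter_upwards [hcst, h1] with ν b c A h
    have k := hrep ν A (c h)
    rw [(b A h).1, (b A h).2.1, (b A h).2.2] at k
    exact k
  have hbds : ∀ᶠ ν in (Uf : Filter ℕ), (∀ i j, e1 ν i j ≤ F ν) ∧ (∀ j, e2 ν j ≤ F ν) ∧
      r1 ν ≤ B ν ∧ min ν (L ν) ≤ r1 ν := by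
    filter_upwards [hcst, h1, h2.nonempty] with ν a b c
    obtain ⟨p0, hp0⟩ := c
    obtain ⟨a1, a2, a3⟩ := a p0 hp0
    refine ⟨fun i j => ?_, fun j => ?_, ?_, ?_⟩
    · rw [← a1]; exact (heb ν p0 (b hp0) i j).le
    · rw [← a2]; exact (he0b ν p0 (b hp0) j).le
    · rw [← a3]; exact hrb ν p0 (b hp0)
    · rw [← a3]; exact (hrep ν p0 (b hp0)).hr1
  have hrinf : ∀ m : ℕ, ∀ᶠ ν in (Uf : Filter ℕ), m ≤ r1 ν := by
    intro m
    filter_upwards [hbds, ev_ge m, hY0 (2 ^ m)] with ν b c d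
    have h4 : m ≤ L ν := by
      rw [hL]
      exact Nat.le_log_of_pow_le (by norm_num) (by omega)
    exact (le_min c h4).trans b.2.2.2
  have fewr : Few Y r1 := fewB.mono (by filter_upwards [hbds] with ν b using b.2.2.1)
  -- the points
  obtain ⟨pt, hpt⟩ : ∃ pt : ℕ → (Fin n → ℕ) → Fin (N + n + 1) → ℤ, ∀ ν A, pt ν A =
      Fin.append (Fin.append (fun j => (x ν A j : ℤ)) (s ν A)) (fun _ : Fin 1 => s0 ν A) :=
    ⟨_, fun _ _ => rfl⟩
  have hptl : ∀ ν A j, pt ν A (Fin.castAdd 1 (Fin.castAdd n j)) = (x ν A j : ℤ) := by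
    intro ν A j
    rw [hpt, Fin.append_left, Fin.append_left]
  obtain ⟨ee, hee⟩ : ∃ ee : ℕ → Fin n → Fin (N + n + 1) → ℕ, ∀ ν i, ee ν i =
      Fin.append (Fin.append (fun j => e1 ν i j + (r1 ν - 1) * e2 ν j)
        (fun i' => if i' = i then 1 else 0)) (fun _ : Fin 1 => r1 ν - 1) := ⟨_, fun _ _ => rfl⟩
  obtain ⟨c0, hc0⟩ : ∃ c0 : ℕ → (Fin n → ℕ) → ℤ, ∀ ν A, c0 ν A =
    s0 ν A * ∏ j, (x ν A j : ℤ) ^ e2 ν j := ⟨_, fun _ _ => rfl⟩
  have hprod : ∀ᶠ ν in (Uf : Filter ℕ), ∀ A ∈ T' ν, ∀ i,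
      ∏ q, pt ν A q ^ ee ν i q = a ν A i * c0 ν A ^ (r1 ν - 1) := by
    filter_upwards [hgd] with ν b A h i
    rw [hpt, hee, prod_ext, hc0]
    congr 1
    rw [(b A h).ha i]
  have heq' : ∀ᶠ ν in (Uf : Filter ℕ), ∀ A ∈ T' ν,
      ∑ i, u ν i * a ν A i = v ν * (c0 ν A * z ν A ^ r1 ν) := by
    filter_upwards [hgd] with ν b A h
    rw [hc0]
    exact (b A h).heq
  have hinj : ∀ᶠ ν in (Uf : Filter ℕ), Set.InjOn (pt ν) (T' ν) := by
    filter_upwards [hgd] with ν b A h A' h' hpp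
    have k1 : ∀ j, x ν A j = x ν A' j := by
      intro j
      have := congrFun hpp (Fin.castAdd 1 (Fin.castAdd n j))
      rw [hptl, hptl] at this
      exact_mod_cast this
    funext i
    rw [(b A h).hA i, (b A' h').hA i]
    exact Finset.prod_congr rfl fun j _ => by rw [k1 j]
  have hOm := big_image h2 pt hinj
  have hne : ∀ ν, ∀ A ∈ T ν, s0 ν A ≠ 0 := by
    intro ν A h h0
    apply hb_sum (hrep ν A h).hb
    rw [(hrep ν A h).heq, h0]
    ring
  have hb : Bdd Y (fun ν => (T' ν).image (pt ν)) := by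
    filter_upwards [h1] with ν c t ht q
    obtain ⟨A, h, rfl⟩ := Finset.mem_image.1 ht
    rw [hpt]
    refine Fin.addCases (fun q => ?_) (fun q => ?_) q
    · rw [Fin.append_left]
      refine Fin.addCases (fun j => ?_) (fun i => ?_) q
      · rw [Fin.append_left]
        have h6 := (hrep ν A (c h)).hx j
        refine ⟨?_, ?_⟩
        · have : x ν A j ≠ 0 := by omega
          exact_mod_cast this
        · rw [abs_of_nonneg (by positivity)]
          exact_mod_cast h6.2.trans (hYY ν)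
      · rw [Fin.append_right]
        refine ⟨?_, ((hrep ν A (c h)).hs i).trans (hYE ν)⟩
        intro h7
        apply hb_nz (hrep ν A (c h)).hb i
        rw [(hrep ν A (c h)).ha i, h7, zero_mul]
    · rw [Fin.append_right]
      exact ⟨hne ν A (c h), ((hrep ν A (c h)).hs0).trans (hYE ν)⟩
  have hfew : Few Y (fun ν => ∑ i, ∑ q, ee ν i q) := by
    have h4 := (Few.const hY (n * (N + n + 1))).mul
      (Few.add hY (Few.add hY fewF (fewB.mul fewF)) (Few.add hY fewB (Few.const hY 1)))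
    refine h4.mono ?_
    filter_upwards [hbds] with ν b
    have hent : ∀ i q, ee ν i q ≤ (F ν + B ν * F ν) + (B ν + 1) := by
      intro i q
      rw [hee]
      refine Fin.addCases (fun q => ?_) (fun q => ?_) q
      · rw [Fin.append_left]
        refine Fin.addCases (fun j => ?_) (fun i' => ?_) q
        · rw [Fin.append_left]
          have k1 := b.1 i j
          have k2 : (r1 ν - 1) * e2 ν j ≤ B ν * F ν :=
            Nat.mul_le_mul ((Nat.sub_le _ _).trans b.2.2.1) (b.2.1 j)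
          omega
        · rw [Fin.append_right]
          split_ifs <;> omega
      · rw [Fin.append_right]
        have := b.2.2.1
        omega
    calc ∑ i, ∑ q, ee ν i q ≤ ∑ _i : Fin n, ∑ _q : Fin (N + n + 1),
          ((F ν + B ν * F ν) + (B ν + 1)) :=
          Finset.sum_le_sum fun i _ => Finset.sum_le_sum fun q _ => hent i q
      _ = _ := by simp; ring
  let S : TD Y (N + n + 1) n :=
    { e := ee
      u := fun ν i => u ν i * v ν ^ (r1 ν - 1)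
      w := fun ν => F ν + F ν * r1 ν
      he := hfew
      hu := Filter.Eventually.of_forall fun ν i => by
        have k1 : |u ν i| ≤ 2 ^ F ν := by
          rw [hF]
          have h5 := (hu ν i).2.trans (exp_le_two_pow (by positivity))
          exact_mod_cast h5
        have k2 : |v ν| ≤ 2 ^ F ν := by
          rw [hF]
          have h5 := (hv ν).trans (exp_le_two_pow (by positivity))
          exact_mod_cast h5
        refine ⟨mul_ne_zero (hu ν i).1 (pow_ne_zero _ (hv0 ν)), ?_⟩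
        rw [abs_mul, abs_pow, pow_add, pow_mul]
        refine mul_le_mul k1 ?_ (by positivity) (by positivity)
        calc |v ν| ^ (r1 ν - 1) ≤ ((2 : ℤ) ^ F ν) ^ (r1 ν - 1) :=
              pow_le_pow_left₀ (abs_nonneg _) k2 _
          _ ≤ ((2 : ℤ) ^ F ν) ^ r1 ν :=
              pow_le_pow_right₀ (one_le_pow₀ (by norm_num)) (Nat.sub_le _ _)
      hw := Few.add hY fewF (fewF.mul fewr) }
  have hST : ∀ᶠ ν in (Uf : Filter ℕ), ∀ A ∈ T' ν, ∀ i, S.T ν i (pt ν A) =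
      (u ν i * a ν A i) * (v ν * c0 ν A) ^ (r1 ν - 1) := by
    filter_upwards [hprod] with ν b A h i
    show (u ν i * v ν ^ (r1 ν - 1)) * ∏ q, pt ν A q ^ ee ν i q = _
    rw [b A h i, mul_pow]
    ring
  have hvc : ∀ᶠ ν in (Uf : Filter ℕ), ∀ A ∈ T' ν, v ν * c0 ν A ≠ 0 ∧ z ν A ^ r1 ν ≠ 0 := by
    filter_upwards [heq', hgd] with ν b c A h
    have k1 := hb_sum (c A h).hb
    rw [b A h, ← mul_assoc] at k1
    exact ⟨left_ne_zero_of_mul k1, right_ne_zero_of_mul k1⟩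
  have hnvs : ∀ᶠ ν in (Uf : Filter ℕ), ∀ t ∈ (T' ν).image (pt ν), ∀ J : Finset (Fin n),
      J.Nonempty → ∑ i ∈ J, S.T ν i t ≠ 0 := by
    filter_upwards [hST, hvc, hgd] with ν b d c t ht J hJ
    obtain ⟨A, h, rfl⟩ := Finset.mem_image.1 ht
    rw [Finset.sum_congr rfl fun i _ => b A h i, ← Finset.sum_mul]
    exact mul_ne_zero ((c A h).hb.nvs J hJ) (pow_ne_zero _ (d A h).1)
  -- the power
  have hzz : ∀ᶠ ν in (Uf : Filter ℕ), ∃ zf : (Fin (N + n + 1) → ℤ) → ℤ,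
      ∀ t ∈ (T' ν).image (pt ν), |zf t| ≤ 2 ^ W ν ∧ ∑ i, S.T ν i t = zf t ^ r1 ν := by
    filter_upwards [hST, hvc, heq', hgd, hrinf 1] with ν b d g c hr
    have key : ∀ t, ∃ z' : ℤ, t ∈ (T' ν).image (pt ν) →
        |z'| ≤ 2 ^ W ν ∧ ∑ i, S.T ν i t = z' ^ r1 ν := by
      intro t
      by_cases ht : t ∈ (T' ν).image (pt ν)
      · obtain ⟨A, h, rfl⟩ := Finset.mem_image.1 ht
        refine ⟨v ν * c0 ν A * z ν A, fun _ => ⟨?_, ?_⟩⟩
        · have k1 : |v ν * c0 ν A * z ν A| ≤ |∑ i, u ν i * a ν A i| := by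
            rw [g A h, ← mul_assoc, abs_mul, abs_mul (v ν * c0 ν A), abs_pow]
            have k2 : 1 ≤ |z ν A| := by
              apply Int.one_le_abs
              intro h0
              apply (d A h).2
              rw [h0]
              exact zero_pow (by omega)
            exact mul_le_mul_of_nonneg_left (le_self_pow₀ k2 (by omega)) (abs_nonneg _)
          have k3 := sum_bd (hpow1 ν) (fun i => (hu ν i).2) (c A h).hb.hi
          have k4 := k3.trans (exp_le_two_pow (by positivity))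
          have k5 : ((2 : ℕ) : ℝ) * (((n + 2 : ℕ) : ℝ) * (Y0 ν : ℝ) ^ (1 / ((ν : ℝ) + 1))) =
              ((2 * (n + 2) : ℕ) : ℝ) * (Y0 ν : ℝ) ^ (1 / ((ν : ℝ) + 1)) := by push_cast; ring
          rw [k5, ← hW] at k4
          have k6 : |∑ i, u ν i * a ν A i| ≤ 2 ^ W ν := by exact_mod_cast k4
          exact k1.trans k6
        · rw [Finset.sum_congr rfl fun i _ => b A h i, ← Finset.sum_mul, g A h]
          obtain ⟨k, hk⟩ : ∃ k, r1 ν = k + 1 := ⟨r1 ν - 1, by omega⟩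
          rw [hk, Nat.add_sub_cancel]
          ring
      · exact ⟨0, fun h => absurd h ht⟩
    choose zf hzf using key
    exact ⟨zf, fun t ht => hzf t ht⟩
  obtain ⟨zz, hzz'⟩ := hzz.choice
  obtain ⟨Om', g1, g2, g3⟩ := hcore Y (N + n + 1) n _ hY hOm hb S hnvs r1 W zz hrinf fewr fewW hzz'
  unfold NCt at g3
  choose Cc hCc using g3
  obtain ⟨C1, hC1⟩ : ∃ C1 : ℕ, ∀ i i', Cc i i' ≤ C1 :=
    ⟨∑ i, ∑ i', Cc i i', fun i i' =>
      (Finset.single_le_sum (f := fun i' => Cc i i') (fun _ _ => Nat.zero_le _)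
        (Finset.mem_univ i')).trans
      (Finset.single_le_sum (f := fun i => ∑ i', Cc i i') (fun _ _ => Nat.zero_le _)
        (Finset.mem_univ i))⟩
  have hall : ∀ᶠ ν in (Uf : Filter ℕ), ∀ i i', ∀ t ∈ Om' ν, ∀ t' ∈ Om' ν, ∃ r r' : ℤ, r ≠ 0 ∧
      r' ≠ 0 ∧ |r| ≤ ((Y ν : ℤ) + 2) ^ Cc i i' ∧ |r'| ≤ ((Y ν : ℤ) + 2) ^ Cc i i' ∧
      r * (S.T ν i t * S.T ν i' t') = r' * (S.T ν i t' * S.T ν i' t) :=
    Filter.eventually_all.2 fun i => Filter.eventually_all.2 fun i' => hCc i i'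
  -- the solutions are near
  have hnear : ∀ᶠ ν in (Uf : Filter ℕ), ∀ A1 ∈ T' ν, pt ν A1 ∈ Om' ν → ∀ A2 ∈ T' ν,
      pt ν A2 ∈ Om' ν → Near ((n + 1) * C1) (Y ν) (a ν A1) (a ν A2) := by
    filter_upwards [hall, hST, hgd, hvc] with ν k3 k4 k5 k6 A1 hA1 ht1 A2 hA2 ht2
    have p1 := (k5 A1 hA1).hb
    have p2 := (k5 A2 hA2).hb
    obtain ⟨i0, -⟩ := hb_n p1
    refine near_of_ratio (C := C1) i0 (hb_nz p1) (hb_nz p2) p1.gcd p2.gcd fun i => ?_
    obtain ⟨q, q', q1, q2, q3, q4, q5⟩ := k3 i i0 _ ht1 _ ht2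
    rw [k4 A1 hA1, k4 A1 hA1, k4 A2 hA2, k4 A2 hA2] at q5
    have hYb : ((Y ν : ℤ) + 2) ^ Cc i i0 ≤ ((Y ν : ℤ) + 2) ^ C1 :=
      pow_le_pow_right₀ (by omega) (hC1 i i0)
    refine ⟨q, q', q1, q2, q3.trans hYb, q4.trans hYb, ?_⟩
    have w1 := pow_ne_zero (r1 ν - 1) (k6 A1 hA1).1
    have w2 := pow_ne_zero (r1 ν - 1) (k6 A2 hA2).1
    apply mul_left_cancel₀ (mul_ne_zero (mul_ne_zero (hu ν i).1 (hu ν i0).1) (mul_ne_zero w1 w2))
    linear_combination q5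
  -- bases with infinite exponents are constant
  obtain ⟨Om2, m1, m2, m3⟩ := Big.const_all (Y := Y)
    (Finset.univ.filter fun q : Fin n × Fin N => Lar (fun ν => e1 ν q.1 q.2))
    (fun q _ (t : Fin (N + n + 1) → ℤ) => t (Fin.castAdd 1 (Fin.castAdd n q.2))) g2 (by
      rintro ⟨i, j⟩ hq A' hA' hA'big
      have hl : Lar (fun ν => e1 ν i j) := (Finset.mem_filter.1 hq).2
      refine hA'big.fiber (fun ν t => t (Fin.castAdd 1 (Fin.castAdd n j)))
        (fun ν => (A' ν).image fun t => t (Fin.castAdd 1 (Fin.castAdd n j)))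
        (Filter.Eventually.of_forall fun ν t ht => Finset.mem_image_of_mem _ ht) ?_
      intro m
      obtain ⟨Y₀, hY₀⟩ := hSC N (4 * m)
      filter_upwards [hA', g1, hA'big.nonempty, hnear, hgd,
        hl (((n + 1) * C1 + 1) * (4 * m)), hY (2 ^ (4 * m)), hY 2, hY Y₀]
        with ν w1 w2 w3 w4 w5 w6 w7 w8 w9
      obtain ⟨t', ht'⟩ := w3
      obtain ⟨A2, hA2, rfl⟩ := Finset.mem_image.1 (w2 (w1 ht'))
      have k2 := w5 A2 hA2
      refine few_bases (C' := (n + 1) * C1 + 1) (e0 := e1 ν i j) (by omega) w6 w7 w8 w9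
        hY₀ Finset.univ (e1 ν i) (fun j => (x ν A2 j : ℤ)) (fun j => ?_) _ ?_
      · have h6 := k2.hx j
        refine ⟨?_, ?_⟩
        · have : x ν A2 j ≠ 0 := by omega
          exact_mod_cast this
        · rw [abs_of_nonneg (by positivity)]
          exact_mod_cast h6.2.trans (hYY ν)
      · intro v' hv'
        obtain ⟨t, ht, rfl⟩ := Finset.mem_image.1 hv'
        obtain ⟨A1, hA1, rfl⟩ := Finset.mem_image.1 (w2 (w1 ht))
        have k1 := w5 A1 hA1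
        show pt ν A1 (Fin.castAdd 1 (Fin.castAdd n j)) ≠ 0 ∧
          |pt ν A1 (Fin.castAdd 1 (Fin.castAdd n j))| ≤ (Y ν : ℤ) ∧ _
        rw [hptl]
        have h6 := k1.hx j
        refine ⟨?_, ?_, ?_⟩
        · have : x ν A1 j ≠ 0 := by omega
          exact_mod_cast this
        · rw [abs_of_nonneg (by positivity)]
          exact_mod_cast h6.2.trans (hYY ν)
        · obtain ⟨q, q', q1, q2, q3, q4, q5⟩ := w4 A1 hA1 (w1 ht) A2 hA2 (w1 ht') i
          have hs2 : s ν A2 i ≠ 0 := by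
            intro h7
            apply hb_nz k2.hb i
            rw [k2.ha i, h7, zero_mul]
          refine ⟨q' * s ν A2 i, mul_ne_zero q2 hs2, ?_, ?_⟩
          · rw [abs_mul, pow_succ]
            have k3 : |s ν A2 i| ≤ (Y ν : ℤ) + 2 := by
              have := (k2.hs i).trans (hYE ν)
              linarith
            exact mul_le_mul q4 k3 (abs_nonneg _) (by positivity)
          · have k4 : (x ν A1 j : ℤ) ^ e1 ν i j ∣ a ν A1 i := by
              rw [k1.ha i]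
              exact Dvd.dvd.mul_left (Finset.dvd_prod_of_mem
                (fun j => (x ν A1 j : ℤ) ^ e1 ν i j) (Finset.mem_univ j)) _
            have k5 : (x ν A1 j : ℤ) ^ e1 ν i j ∣ q' * a ν A2 i := by
              rw [← q5]
              exact k4.mul_left _
            rw [k2.ha i, ← mul_assoc] at k5
            exact k5)
  -- the large parts are constant
  have hconst : ∀ᶠ ν in (Uf : Filter ℕ), ∀ i j, ν ≤ e1 ν i j → ∀ t ∈ Om2 ν, ∀ t' ∈ Om2 ν,
      t (Fin.castAdd 1 (Fin.castAdd n j)) = t' (Fin.castAdd 1 (Fin.castAdd n j)) := by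
    rw [Filter.eventually_all]
    intro i
    rw [Filter.eventually_all]
    intro j
    by_cases hl : Lar (fun ν => e1 ν i j)
    · filter_upwards [m3 (i, j) (Finset.mem_filter.2 ⟨Finset.mem_univ _, hl⟩)] with ν b _
      exact b
    · obtain ⟨E', hE'⟩ := not_lar hl
      filter_upwards [hE', ev_ge (E' + 1)] with ν b c hν
      omega
  obtain ⟨ν, k0, k1, k2, k3, k4⟩ := (g1.and (m1.and (m2.one_lt.and (hconst.and hgd)))).exists
  obtain ⟨t1, ht1, t2, ht2, htne⟩ := Finset.one_lt_card.1 k2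
  obtain ⟨A1, hA1, rfl⟩ := Finset.mem_image.1 (k0 (k1 ht1))
  obtain ⟨A2, hA2, rfl⟩ := Finset.mem_image.1 (k0 (k1 ht2))
  apply htne
  congr 1
  funext i
  rw [(k4 A1 hA1).hA i, (k4 A2 hA2).hA i]
  refine Finset.prod_congr rfl fun j _ => ?_
  by_cases hj : ν ≤ e1 ν i j
  · rw [if_pos hj, if_pos hj]
    have h5 := k3 i j hj _ ht1 _ ht2
    rw [hptl, hptl] at h5
    have h6 : x ν A1 j = x ν A2 j := by exact_mod_cast h5
    rw [h6]
  · rw [if_neg hj, if_neg hj]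

end Pool.Agent.N403.HB
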